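import Pool.Agent.Q35.ZC.Ct
import Pool.Agent.Q35.ZC.All2

/-!
# K3 surfaces: rationally equivalent rational points are dense near a rational point

`K` is a number field and `F` is a form over `K` of bidegree `(4, 4)` such that the curve `F = 0` in
`ℙ¹ × ℙ¹` is smooth. For `e ∈ Kˣ` the double cover `X_e : w² = e F(x)` of `ℙ¹ × ℙ¹` is a K3 surface; let
`ι` be its involution `w ↦ -w`. For a `K`-point `Q` of the affine part of `X_e` the cycle `[Q] + [ι Q]`
is a fibre of `X_e → ℙ¹ × ℙ¹`, and its class does not depend on `Q`. The Bloch–Beilinson conjecture says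
that over the algebraic closure all points are rationally equivalent, so that `Q` and `ι Q` are. We call
`Q` *central* if a positive multiple of `[Q] - [ι Q]` is rationally equivalent to zero over the algebraic
closure. By theorems of Roitman (no torsion) and Beauville–Voisin the central points are the rational
points in the canonical class `c_X`.

**Theorem.**
1. A positive multiple of the difference of two central points is rationally equivalent to zero over the
   algebraic closure (so the points are rationally equivalent, by Roitman's theorem).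
2. There are a finite set `T` of points of `ℙ¹ × ℙ¹` and finitely many fibres of the two projections such
   that for all `e` and all rational points `P` of `X_e`, `w ≠ 0`, which do not lie over them: the rational
   points `Q` such that `[Q] - [ι Q]` is an odd multiple of `[P] - [ι P]` in the Chow group of zero-cycles
   over `K` are dense near `P`, in the product of the sets of the `K_v`-points, for all finite nonempty sets
   of `p`-adic places `v` of degree one over different primes `p`, with or without a real place. If `P` is
   central, then all these `Q` are central.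
3. If the line `x_j = c`, `c ∈ K`, is tangent to the curve `F = 0` (so that the fibre of `X_e` over it is a
   singular, hence a rational curve), then all its rational points are central, and the central rational
   points are dense near all but finitely many of them.
4. Every `F` has such fibres with infinitely many rational points over a finite extension: there are a
   finite extension `K'` of `K` and a central `K'`-point `P` of `X_1` (in one of the four charts of
   `ℙ¹ × ℙ¹`) such that for all finite sets of places of `K'` as in (2) the central `K'`-points are dense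
   near `P`.

So on each of these K3 surfaces, over a finite extension `K'` of the base field, the `K'`-points in one and
the same class, the class `c_X`, are dense in a nonempty open subset of the product of the sets of local
points.

Zero-cycles are formal sums of points of the affine part `w² = f(x)`. The cycles in `Rat` are rationally
equivalent to zero on `X_e`; they are generated by the divisors of the functions `(u + v w) / (u - v w)` on
the curves in the directions of the coordinates, the differences of two points on the image of a line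
`t ↦ (c(t), b(t))`, and the differences of two fibres of the projection `(x, w) ↦ x`.

Idea of the proof. On the curve of genus one in the direction `i` through a rational point `P` we move to
the points `Q` which are linearly equivalent to `P + m (P - ι P)`, so that `Q - ι Q` is linearly equivalent
to `(2 m + 1) (P - ι P)`. By our theorems on the rational points of these surfaces (`MP_ed3816_nt`) such
moves in the two directions lead, outside `T` and the special fibres, to a dense set of points near `P`.
The points over a tangent line are of infinite order in the other direction, up to finitely many, by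
inequalities at all places of `K`.

Lemmas on the curves of genus one: helpers 5, 26, 65, 131, 231, 254; on zero-cycles: helpers 5, 68, 210;
on tangent lines: helpers 18, 153, 221, 247 (with helper 222); the theorem also uses the lemmas of many
helpers on torsion sections and special lines in `Pool.Agent.Q35.TT`.
-/

set_option autoImplicit false

namespace Pool.Agent.Results.MP_9207e0_ag.EquivalentPointsDense

open MvPolynomial

section surfaces

/-- `F` is a form of bidegree `(4, 4)`: of degree `4` in each pair of variables `(j, 0)`, `(j, 1)`, the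
coordinates of the `j`-th factor of `ℙ¹ × ℙ¹`. -/
def IsForm {K : Type} [Field K] (F : MvPolynomial (Fin 2 × Fin 2) K) : Prop :=
  ∀ m ∈ F.support, ∀ j, m (j, 0) + m (j, 1) = 4

/-- The curve `F = 0` in `ℙ¹ × ℙ¹` is smooth. -/
def Smooth {K : Type} [Field K] (F : MvPolynomial (Fin 2 × Fin 2) K) : Prop :=
  ∀ x : Fin 2 × Fin 2 → AlgebraicClosure K, (∀ j, ∃ b, x (j, b) ≠ 0) → ∃ p, aeval x (pderiv p F) ≠ 0

/-- The polynomial of `F` in the chart of `ℙ¹ × ℙ¹` where the coordinates `(0, ε 0)`, `(1, ε 1)` are `1`. -/
noncomputable def chart {K : Type} [Field K] (F : MvPolynomial (Fin 2 × Fin 2) K)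
    (ε : Fin 2 → Fin 2) : MvPolynomial (Fin 2) K :=
  aeval (fun p : Fin 2 × Fin 2 => if p.2 = ε p.1 then 1 else X p.1) F

/-- The polynomial `F(1, z₀; 1, z₁)`. -/
noncomputable def affine {K : Type} [Field K] (F : MvPolynomial (Fin 2 × Fin 2) K) :
    MvPolynomial (Fin 2) K :=
  chart F fun _ => 0

/-- The point `(z, w)` lies on the double cover `w² = f(z)`. -/
def OnCover {F : Type} [Field F] {m : ℕ} (f : MvPolynomial (Fin m) F) (P : (Fin m → F) × F) :
    Prop :=
  P.2 ^ 2 = eval P.1 f

/-- The image of a point under an embedding of fields. -/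
def image {K F : Type} [Field K] [Field F] (φ : K →+* F) {m : ℕ}
    (P : (Fin m → K) × K) : (Fin m → F) × F :=
  (fun j => φ (P.1 j), φ P.2)

end surfaces

section cycles

variable {F : Type} [Field F] {m : ℕ}

/-- The zero-cycle `[(x, w)]`. -/
noncomputable def pt (x : Fin m → F) (w : F) : ((Fin m → F) × F) →₀ ℤ := Finsupp.single (x, w) 1

/-- The zero-cycle `[(x, w)] - [(x, -w)]`. -/
noncomputable def dl (x : Fin m → F) (w : F) : ((Fin m → F) × F) →₀ ℤ := pt x w - pt x (-w)

/-- The point `x + t e_i`. -/
def shift (x : Fin m → F) (i : Fin m) (t : F) : Fin m → F :=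
  fun a => x a + t * (Pi.single i 1 : Fin m → F) a

/-- The restriction `q(t) = f(x + t e_i)` of a polynomial to the line through `x` in the direction of
the `i`-th coordinate. -/
noncomputable def line (f : MvPolynomial (Fin m) F) (x : Fin m → F) (i : Fin m) : Polynomial F :=
  aeval (fun k => Polynomial.C (x k) +
    Polynomial.C ((Pi.single i 1 : Fin m → F) k) * Polynomial.X) f

/-- The function `u(t) + v(t) w` on the curve `w² = q(t)` has the zeros `T` (with multiplicities), and
no zero at infinity (as a section of the `M`-th power of the line bundle of degree two): `u` and `v` are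
coprime, the function vanishes at the points `T` of the curve, its norm `u² - v² q` has degree `2 M` and
the zeros `t`, `(t, w) ∈ T`. -/
def Zeros (q u v : Polynomial F) (T : Multiset (F × F)) : Prop :=
  IsCoprime u v ∧ (∀ s ∈ T, s.2 ^ 2 = q.eval s.1 ∧ u.eval s.1 + v.eval s.1 * s.2 = 0) ∧
    (∃ κ : F, κ ≠ 0 ∧ u ^ 2 - v ^ 2 * q =
      Polynomial.C κ * (T.map fun s => Polynomial.X - Polynomial.C s.1).prod) ∧
    ∃ M : ℕ, T.card = 2 * M ∧ u.natDegree ≤ M ∧ v.natDegree + 2 ≤ M

/-- The divisors of the functions `(u + v w) / (u - v w)` on the curves in the direction of a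
coordinate. -/
def Fibral (f : MvPolynomial (Fin m) F) : Set (((Fin m → F) × F) →₀ ℤ) :=
  {z | ∃ (x : Fin m → F) (i : Fin m) (u v : Polynomial F) (T : Multiset (F × F)),
    Zeros (line f x i) u v T ∧ z = (T.map fun s => dl (shift x i s.1) s.2).sum}

/-- The differences of two points on a rational curve, the image of a line under
`t ↦ (c(t), b(t))`. -/
def Curves (f : MvPolynomial (Fin m) F) : Set (((Fin m → F) × F) →₀ ℤ) :=
  {z | ∃ (c : Fin m → Polynomial F) (b : Polynomial F), b ^ 2 = aeval c f ∧
    z = pt (fun k => (c k).eval 0) (b.eval 0) - pt (fun k => (c k).eval 1) (b.eval 1)}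

/-- The differences of two fibres of the projection `(x, w) ↦ x`. -/
def Fibres (f : MvPolynomial (Fin m) F) : Set (((Fin m → F) × F) →₀ ℤ) :=
  {z | ∃ (x x' : Fin m → F) (w w' : F), w ^ 2 = eval x f ∧ w' ^ 2 = eval x' f ∧
    z = pt x w + pt x (-w) - pt x' w' - pt x' (-w')}

/-- A group of zero-cycles which are rationally equivalent to zero on `w² = f(x)`. -/
noncomputable def Rat (f : MvPolynomial (Fin m) F) : AddSubgroup (((Fin m → F) × F) →₀ ℤ) :=
  AddSubgroup.closure (Fibral f ∪ Curves f ∪ Fibres f)

end cycles

section points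

variable {K : Type} [Field K] {m : ℕ}

/-- The rational points `Q` such that `[Q] - [ι Q]` is an odd multiple of `[P] - [ι P]`. -/
def OddMultiples (f : MvPolynomial (Fin m) K) (P : (Fin m → K) × K) : Set ((Fin m → K) × K) :=
  {Q | OnCover f Q ∧ ∃ k : ℤ, dl Q.1 Q.2 - (2 * k + 1) • dl P.1 P.2 ∈ Rat f}

/-- The embedding in the algebraic closure. -/
noncomputable abbrev toC (K : Type) [Field K] : K →+* AlgebraicClosure K :=
  algebraMap K (AlgebraicClosure K)

/-- The rational points `Q` such that a positive multiple of `[Q] - [ι Q]` is rationally equivalent to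
zero over the algebraic closure. -/
def Central (f : MvPolynomial (Fin m) K) : Set ((Fin m → K) × K) :=
  {Q | OnCover f Q ∧ ∃ N : ℕ, N ≠ 0 ∧
    N • dl (image (toC K) Q).1 (image (toC K) Q).2 ∈ Rat (map (toC K) f)}

/-- A positive multiple of the difference of the points is rationally equivalent to zero over the
algebraic closure. -/
def Equivalent (f : MvPolynomial (Fin m) K) (Q Q' : (Fin m → K) × K) : Prop :=
  ∃ N : ℕ, N ≠ 0 ∧ N • (pt (image (toC K) Q).1 (image (toC K) Q).2 -
    pt (image (toC K) Q').1 (image (toC K) Q').2) ∈ Rat (map (toC K) f)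

variable {ι : Type} {p : ι → ℕ} [∀ i, Fact (p i).Prime]

/-- The points of `R` are dense near `P` in the product of the sets of the `ℚ_[p i]`-points. -/
def Dense (f : MvPolynomial (Fin m) K) (R : Set ((Fin m → K) × K)) (P : (Fin m → K) × K)
    (σ : ∀ i, K →+* ℚ_[p i]) : Prop :=
  ∃ U ∈ nhds (fun i => image (σ i) P), ∀ S ∈ U, (∀ i, OnCover (map (σ i) f) (S i)) →
    S ∈ closure {S | ∃ Q ∈ R, S = fun i => image (σ i) Q}

/-- The points of `R` are dense near `P` in the product of the set of the real points and of the sets
of the `ℚ_[p i]`-points. -/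
def DenseReal (f : MvPolynomial (Fin m) K) (R : Set ((Fin m → K) × K)) (P : (Fin m → K) × K)
    (σ : ∀ i, K →+* ℚ_[p i]) (τ : K →+* ℝ) : Prop :=
  ∃ U ∈ nhds (image τ P, fun i => image (σ i) P), ∀ S ∈ U, OnCover (map τ f) S.1 →
    (∀ i, OnCover (map (σ i) f) (S.2 i)) →
      S ∈ closure {S | ∃ Q ∈ R, S = (image τ Q, fun i => image (σ i) Q)}

/-- The points of `R` are dense near `P`, for all finite nonempty sets of `p`-adic places of degree one
over different primes, with or without a real place. -/
def DenseNear (f : MvPolynomial (Fin m) K) (R : Set ((Fin m → K) × K)) (P : (Fin m → K) × K) : Prop :=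
  ∀ (ι : Type) [Finite ι] [Nonempty ι] (p : ι → ℕ) [∀ v, Fact (p v).Prime],
    Function.Injective p → ∀ σ : ∀ v, K →+* ℚ_[p v],
      Dense f R P σ ∧ ∀ τ : K →+* ℝ, DenseReal f R P σ τ

end points

open Pool.Agent.Q35.ZC in
/-- The theorem, from the lemmas. -/
theorem result_of (hS : S_STEP) (hM : S_MAP) (hO : S_NOD) (hN : S_NDT) (hT : S_TGT) (hX : S_KEX)
    (hB : S_SMB) (h1 : Pool.Agent.Q35.TT.S_TAN) (h2 : Pool.Agent.Q35.TT.S_TWS)
    (h3 : Pool.Agent.Q35.TT.S_SPE) (h4 : Pool.Agent.Q35.TT.S_TBN) (h5 : Pool.Agent.Q35.TT.S_CHF)
    (K : Type) [Field K] [NumberField K] (F : MvPolynomial (Fin 2 × Fin 2) K)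
    (hF : IsForm F) (hs : Smooth F) :
    (∀ e : K, ∀ Q ∈ Central (C e * affine F), ∀ Q' ∈ Central (C e * affine F),
      Equivalent (C e * affine F) Q Q') ∧
    (∃ (T : Set (Fin 2 → K)) (E : Fin 2 → Set K), T.Finite ∧ (∀ j, (E j).Finite) ∧
      ∀ e : K, e ≠ 0 → ∀ P : (Fin 2 → K) × K, OnCover (C e * affine F) P → P.2 ≠ 0 → P.1 ∉ T →
        (∀ j, P.1 j ∉ E j) →
        DenseNear (C e * affine F) (OddMultiples (C e * affine F) P) P ∧
        (P ∈ Central (C e * affine F) →
          OddMultiples (C e * affine F) P ⊆ Central (C e * affine F))) ∧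
    (∀ (e : K) (i j : Fin 2) (c : K), e ≠ 0 → i ≠ j →
      (∃ y : Fin 2 → AlgebraicClosure K, y j = toC K c ∧ aeval y (affine F) = 0 ∧
        aeval y (pderiv i (affine F)) = 0) →
      (∀ P, OnCover (C e * affine F) P → P.1 j = c → P ∈ Central (C e * affine F)) ∧
      ∃ S : Set K, S.Finite ∧ ∀ P, OnCover (C e * affine F) P → P.1 j = c → P.1 i ∉ S →
        DenseNear (C e * affine F) (Central (C e * affine F)) P) ∧
    ∃ (ε : Fin 2 → Fin 2) (K' : Type) (_ : Field K') (_ : NumberField K') (φ : K →+* K')
      (P : (Fin 2 → K') × K'), P.2 ≠ 0 ∧ P ∈ Central (map φ (chart F ε)) ∧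
        DenseNear (map φ (chart F ε)) (Central (map φ (chart F ε))) P := by
  obtain ⟨hd, hsm, -⟩ := h5 K 2 F hF (fun _ => 0)
  refine ⟨fun e Q hQ Q' hQ' => ct_pair hQ hQ', ?_, ?_, ?_⟩
  · obtain ⟨T, E, hT, hE, h⟩ := k3_near hS h1 h2 h3 (f := Pool.Agent.Q35.TT.ch F fun _ => 0) hd
      (hsm hs)
    exact ⟨T, E, hT, hE, fun e he P hP hw hPT hPE =>
      ⟨h e he P.1 P.2 hw hP hPT hPE, fun hPc => odds_ct hM hPc⟩⟩
  · intro e i j c he hij ht
    have hij' : ∀ k : Fin 2, k ≠ i → k = j := by
      intro k hk
      have := hij
      omega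
    have hcen : ∀ P, OnCover (C e * affine F) P → P.1 j = c → P ∈ Central (C e * affine F) := by
      intro P hP hj
      obtain ⟨y, hy, h6, h7⟩ := ht
      refine tangent_ct hO (f := C e * affine F) (i := i) ((degreeOf_C_mul_le _ i e).trans (hd i)) hP
        ⟨y, fun k hk => ?_, ?_, ?_⟩
      · rw [hij' k hk, hj]
        exact hy
      · rw [map_mul, h6, mul_zero]
      · rw [pderiv_C_mul, map_mul, h7, mul_zero]
    obtain ⟨S, hSf, hS'⟩ := k3_tangent hS h2 h3 h4 hN (f := Pool.Agent.Q35.TT.ch F fun _ => 0) hd
      (hsm hs) he hij ht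
    refine ⟨hcen, S, hSf, fun P hP hj hi => ?_⟩
    have h := (hS' P.1 P.2 hj hi hP).2
    exact Near.mono (odds_ct hM (hcen P hP hj)) h
  · exact k3_ext hS hM hO h2 h3 h4 hN hT hX hB h5 hF hs

/-- **Rational points in the same class are dense near a rational point; the canonical class.** -/
theorem result (K : Type) [Field K] [NumberField K] (F : MvPolynomial (Fin 2 × Fin 2) K)
    (hF : IsForm F) (hs : Smooth F) :
    -- (1) two central points are equivalent
    (∀ e : K, ∀ Q ∈ Central (C e * affine F), ∀ Q' ∈ Central (C e * affine F),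
      Equivalent (C e * affine F) Q Q') ∧
    -- (2) outside finitely many points and lines the odd multiples of the class of `P` are dense near `P`
    (∃ (T : Set (Fin 2 → K)) (E : Fin 2 → Set K), T.Finite ∧ (∀ j, (E j).Finite) ∧
      ∀ e : K, e ≠ 0 → ∀ P : (Fin 2 → K) × K, OnCover (C e * affine F) P → P.2 ≠ 0 → P.1 ∉ T →
        (∀ j, P.1 j ∉ E j) →
        DenseNear (C e * affine F) (OddMultiples (C e * affine F) P) P ∧
        (P ∈ Central (C e * affine F) →
          OddMultiples (C e * affine F) P ⊆ Central (C e * affine F))) ∧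
    -- (3) the points over a tangent line
    (∀ (e : K) (i j : Fin 2) (c : K), e ≠ 0 → i ≠ j →
      (∃ y : Fin 2 → AlgebraicClosure K, y j = toC K c ∧ aeval y (affine F) = 0 ∧
        aeval y (pderiv i (affine F)) = 0) →
      (∀ P, OnCover (C e * affine F) P → P.1 j = c → P ∈ Central (C e * affine F)) ∧
      ∃ S : Set K, S.Finite ∧ ∀ P, OnCover (C e * affine F) P → P.1 j = c → P.1 i ∉ S →
        DenseNear (C e * affine F) (Central (C e * affine F)) P) ∧
    -- (4) over a finite extension
    ∃ (ε : Fin 2 → Fin 2) (K' : Type) (_ : Field K') (_ : NumberField K') (φ : K →+* K')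
      (P : (Fin 2 → K') × K'), P.2 ≠ 0 ∧ P ∈ Central (map φ (chart F ε)) ∧
        DenseNear (map φ (chart F ε)) (Central (map φ (chart F ε))) P :=
  result_of Pool.Agent.Q35.ZC.step2 Pool.Agent.Q35.ZC.map2 Pool.Agent.Q35.ZC.nod2
    Pool.Agent.Q35.ZC.ndt2 Pool.Agent.Q35.ZC.tgt2 Pool.Agent.Q35.ZC.kex2 Pool.Agent.Q35.ZC.smb2
    Pool.Agent.Q35.TT.tan2 Pool.Agent.Q35.TT.tws2 Pool.Agent.Q149.TT.spe
    (Pool.Agent.Q35.TT.tbn_of Pool.Agent.Q35.TT.orn2) Pool.Agent.Q182.TT.CHF.chf K F hF hs

end Pool.Agent.Results.MP_9207e0_ag.EquivalentPointsDense
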