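import Pool.Agent.Q28.KI.Main

/-!
# Zero-cycles on isogenous K3 surfaces

Let `X` be a K3 surface over the algebraic numbers. By a theorem of Huybrechts the rational Chow
motive of `X` depends only on its isogeny class, that is on the rational Hodge structure `H²(X, ℚ)`
with the intersection form. With Witt's theorem, which is proved here, one can choose in every
isogeny class surfaces whose divisor classes are in a special position. We deduce that the
conjecture of Bloch and Beilinson holds for all K3 surfaces over the algebraic numbers if it holds
for the surfaces which have an indivisible divisor class of degree `2 d` for squarefree `d` (or for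
`d` in any set of numbers which meets all square classes); that it holds for all elliptic K3 surfaces
if it holds for those with a section. (For large Picard number see the companion
`PrescribedDivisorClasses`.)
-/

open Matrix

universe u v

namespace Pool.Agent.Results.MP_9207e0_ag.IsogenousSurfaces

open Pool.Agent.Q28.KI

/-- **Zero-cycles on isogenous K3 surfaces.** Let `T` be the K3 surfaces over the algebraic numbers
with their periods and their groups of zero-cycles of degree zero (`hT`: known facts).

1. Let `m` be a finite family of classes of the K3 lattice with nonzero determinant of intersection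
  numbers. Each surface `X` which has rational divisor classes with the same intersection numbers
  has the same zero-cycles as a surface on which the `m i` are divisor classes. In particular Q1 for
  the former surfaces is equivalent to Q1 for the latter.
2. Let `D` be a set of natural numbers which meets every class of the positive integers modulo
  squares. Each `X` has the same zero-cycles as a surface with an indivisible divisor class of degree
  `2 d` for some `d` in `D`. In particular Q1 is equivalent to Q1 for these surfaces.
3. Q1 is equivalent to Q1 for the surfaces with an indivisible divisor class of degree `2 d` for some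
  squarefree `d`.
4. Each `X` with a nonzero rational divisor class of self-intersection zero (an elliptic surface) has
  the same zero-cycles as a surface with divisor classes `e`, `f` which span the hyperbolic plane
  (an elliptic surface with a section). -/
theorem result (T : Surfaces.{u, v}) (hT : T.Facts) :
    (∀ (r : ℕ) (m : Fin r → V), (∀ i, Integral (m i)) →
      (Matrix.of fun i j => B (m i) (m j)).det ≠ 0 →
        (∀ X : T.Surf, HasGram X m → ∃ X' : T.Surf, Same X X' ∧ Divisors X' m) ∧
        ((∀ X : T.Surf, HasGram X m → Trivial X) ↔ ∀ X : T.Surf, Divisors X m → Trivial X)) ∧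
    (∀ D : Set ℕ,
      (∀ n : ℕ, 0 < n → ∃ d ∈ D, ∃ a b : ℕ, 0 < a ∧ 0 < b ∧ a ^ 2 * n = b ^ 2 * d) →
        (∀ X : T.Surf, ∃ X' : T.Surf, Same X X' ∧ ∃ d ∈ D, HasDegree X' d) ∧
        ((∀ X : T.Surf, Trivial X) ↔ ∀ X : T.Surf, (∃ d ∈ D, HasDegree X d) → Trivial X)) ∧
    ((∀ X : T.Surf, Trivial X) ↔
      ∀ X : T.Surf, (∃ d : ℕ, Squarefree d ∧ HasDegree X d) → Trivial X) ∧
    ((∀ X : T.Surf, Isotropic X → ∃ X' : T.Surf, Same X X' ∧ Divisors X' ![e, f]) ∧
      ((∀ X : T.Surf, Isotropic X → Trivial X) ↔ ∀ X : T.Surf, Divisors X ![e, f] → Trivial X)) :=
  ⟨fun _ m _ hm => ⟨fun X hX => move hT X m hm hX, gram_iff hT m hm⟩,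
    fun _ hD => ⟨fun X => move_degree hT hD X, degree_iff hT hD⟩,
    degree_iff hT (D := {d : ℕ | Squarefree d}) squarefree_classes,
    ⟨fun X hX => move_elliptic hT X hX, elliptic_iff hT⟩⟩

end Pool.Agent.Results.MP_9207e0_ag.IsogenousSurfaces
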