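import Pool.Agent.Q28.KS.ZeroLat

/-!
# Zero-cycles on K3 surfaces and prescribed divisor classes

By a theorem of Huybrechts the rational Chow motive of a K3 surface `X` depends only on its isogeny
class, that is on the rational Hodge structure `H²(X, ℚ)` with the intersection form. We show that
every isogeny class of Picard number at least `r + 3` contains surfaces on which `r` prescribed
orthogonal classes `m_i` of the K3 lattice are divisor classes; the only conditions are that the
numbers `m_i²` are not zero and at most one of them is positive (the Hodge index theorem). For
example (`r = 1`, `m² = 2`) every K3 surface of Picard number at least 4 has the same zero-cycles as a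
double plane, and for Picard number at least `n + 4` as a double plane whose branch curve has
singularities with `n` orthogonal vanishing classes (`m_0² = 2`, `m_i² = -2`), for all `n ≤ 16`. The
rational divisor classes are found one by one with Meyer's theorem on indefinite forms in five
variables, which is proved, and moved to the prescribed ones with Witt's theorem, also proved.
-/

open Matrix

universe u v

namespace Pool.Agent.Results.MP_9207e0_ag.PrescribedDivisorClasses

open Pool.Agent.Q28.KI Pool.Agent.Q28.KS

/-- **Prescribed divisor classes.** Let `m_1, …, m_r` be orthogonal vectors of the K3 lattice with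
nonzero squares, at most one of them positive.

1. Without hypotheses: let `N` be a subspace of `V = (U³ ⊕ E₈(-1)²) ⊗ ℚ` of dimension at least `r + 3`
  on which the form is nondegenerate, and negative on the nonzero vectors orthogonal to some vector
  (`Good N`), and which contains a vector of positive square (for instance, the rational divisor
  classes of a projective K3 surface). Then there is a rational isometry `g` of `V` such that `g(N)`
  contains all `m_i`.
2. Let `T` be the K3 surfaces over the algebraic numbers with their periods and their groups of
  zero-cycles of degree zero (`T.Facts`: known facts). Then every K3 surface `X` of Picard number at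
  least `r + 3` has the same zero-cycles as a K3 surface `X'` of Picard number at least `r + 3` on which
  the `m_i` are divisor classes. In particular Q1 for all surfaces of Picard number at least `r + 3` is
  equivalent to Q1 for those of them on which the `m_i` are divisor classes. -/
theorem result {r : ℕ} (m : Fin r → V) (_hi : ∀ i, Integral (m i)) (hm : IsAdmissible m) :
    (∀ (N : Submodule ℚ V) (h : V), Good N → h ∈ N → 0 < B h h → r + 3 ≤ Module.finrank ℚ N →
      ∃ g : V ≃ₗ[ℚ] V, IsIsometry B g ∧ ∀ i, ∃ z ∈ N, g z = m i) ∧
    ∀ T : Surfaces.{u, v}, T.Facts →
      (∀ X : T.Surf, RankAtLeast X (r + 3) → ∃ X' : T.Surf, Same X X' ∧ ∃ p ∈ T.Per X',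
        (∀ i, p (m i) = 0) ∧ ∃ w : Fin (r + 3) → V, LinearIndependent ℚ w ∧ ∀ i, p (w i) = 0) ∧
      ((∀ X : T.Surf, RankAtLeast X (r + 3) → Trivial X) ↔
        ∀ X : T.Surf, RankAtLeast X (r + 3) → Divisors X m → Trivial X) :=
  ⟨fun _ _ hN hh hpos hr => prescribe_lattice hm hN hh hpos hr,
    fun _ hT => ⟨prescribe hT hm, prescribe_iff hT hm⟩⟩

end Pool.Agent.Results.MP_9207e0_ag.PrescribedDivisorClasses
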